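import Pool.Agent.Helper65.CG.Defs2

/-!
# Project UB, modules S1 (exclusion) and S7 (window)
-/

set_option autoImplicit false

namespace Pool.Agent.Helper65.CG

open scoped Classical
open Pool.Agent.Helper65.CliqueGame

variable {n q m : ℕ}

theorem exclusion {α φ : Type} (S₀ : Finset α) (feat : α → Finset φ) {p : ℝ} (hp : 0 < p)
    (hp1 : p < 1) :
    ∃ Ex : Finset φ, (Ex.card : ℝ) ≤ Real.log S₀.card / p + 1 ∧
      ∀ f, ((((S₀.filter (fun s => Disjoint (feat s) Ex)).filter (fun s => f ∈ feat s)).card : ℕ) : ℝ)
        ≤ p * (S₀.filter (fun s => Disjoint (feat s) Ex)).card := by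
  induction hN : S₀.card using Nat.strong_induction_on generalizing S₀ with
  | _ N ih =>
    by_cases h : ∀ f, (((S₀.filter (fun s => f ∈ feat s)).card : ℕ) : ℝ) ≤ p * S₀.card
    · refine ⟨∅, ?_, fun f => ?_⟩
      · have : 0 ≤ Real.log N / p := div_nonneg (Real.log_natCast_nonneg _) hp.le
        simp only [Finset.card_empty, Nat.cast_zero]
        linarith
      · have h1 : S₀.filter (fun s => Disjoint (feat s) (∅ : Finset φ)) = S₀ := by
          apply Finset.filter_true_of_mem
          intro s _
          exact Finset.disjoint_empty_right _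
        rw [h1]
        exact h f
    · push Not at h
      obtain ⟨f, hf⟩ := h
      set S₁ := S₀.filter (fun s => f ∉ feat s) with hS₁
      have hcard : (S₀.filter (fun s => f ∈ feat s)).card + S₁.card = S₀.card :=
        Finset.card_filter_add_card_filter_not _
      have hcardR : (((S₀.filter (fun s => f ∈ feat s)).card : ℕ) : ℝ) + (S₁.card : ℝ) =
          (S₀.card : ℝ) := by exact_mod_cast hcard
      have hS₁lt : (S₁.card : ℝ) < (1 - p) * S₀.card := by linarith
      have hS₀pos : (0 : ℝ) < S₀.card := by
        by_contra hc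
        have h0 : (S₀.card : ℝ) = 0 := le_antisymm (not_lt.mp hc) (Nat.cast_nonneg _)
        rw [h0, mul_zero] at hS₁lt
        exact absurd hS₁lt (not_lt.mpr (Nat.cast_nonneg _))
      rcases S₁.eq_empty_or_nonempty with hemp | hne
      · refine ⟨{f}, ?_, fun f' => ?_⟩
        · have : 0 ≤ Real.log N / p := div_nonneg (Real.log_natCast_nonneg _) hp.le
          simp only [Finset.card_singleton, Nat.cast_one]
          linarith
        · have h1 : S₀.filter (fun s => Disjoint (feat s) ({f} : Finset φ)) = ∅ := by
            rw [← hemp, hS₁]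
            apply Finset.filter_congr
            intro s _
            rw [Finset.disjoint_singleton_right]
          rw [h1]
          simp
      · have hlt : S₁.card < N := by
          rw [← hN]
          have : (S₁.card : ℝ) < S₀.card := by nlinarith
          exact_mod_cast this
        obtain ⟨Ex, hEx, hall⟩ := ih S₁.card hlt S₁ rfl
        refine ⟨insert f Ex, ?_, fun f' => ?_⟩
        · have h1 : ((insert f Ex).card : ℝ) ≤ Ex.card + 1 := by
            exact_mod_cast Finset.card_insert_le _ _
          have hpos : (0 : ℝ) < S₁.card := by exact_mod_cast hne.card_pos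
          have h2 : Real.log S₁.card ≤ Real.log N - p := by
            have h3 : Real.log S₁.card ≤ Real.log ((1 - p) * S₀.card) :=
              Real.log_le_log hpos hS₁lt.le
            rw [Real.log_mul (by linarith) hS₀pos.ne', hN] at h3
            have h4 : Real.log (1 - p) ≤ (1 - p) - 1 := Real.log_le_sub_one_of_pos (by linarith)
            linarith
          have h5 : Real.log S₁.card / p ≤ Real.log N / p - 1 := by
            rw [div_sub_one hp.ne']
            exact div_le_div_of_nonneg_right h2 hp.le
          linarith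
        · have h1 : S₀.filter (fun s => Disjoint (feat s) (insert f Ex)) =
              S₁.filter (fun s => Disjoint (feat s) Ex) := by
            rw [hS₁, Finset.filter_filter]
            apply Finset.filter_congr
            intro s _
            rw [Finset.disjoint_insert_right]
          rw [h1]
          exact hall f'

/-- the choice of the shift -/
theorem window (T : Prs q) (f : Fin q × Fin q → ℝ) (k : Fin q × Fin q → ℝ)
    (hk : ∀ p ∈ T, 0 ≤ k p) {Sh : ℕ} (hSh : 1 ≤ Sh) {w : ℝ} (hw : 0 < w) :
    ∃ a : ℕ, a < Sh ∧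
      (Sh : ℝ) * ∑ p ∈ T.filter (fun p => ∃ j : ℕ, j * (5 * w * Sh) + 5 * w * a < f p ∧
        f p ≤ j * (5 * w * Sh) + 5 * w * (a + 1)), k p ≤ ∑ p ∈ T, k p := by
  by_contra hcon
  push Not at hcon
  have hSh' : (0 : ℝ) < Sh := by exact_mod_cast hSh
  have h1 : (Sh : ℝ) * ∑ p ∈ T, k p < ∑ a ∈ Finset.range Sh, (Sh : ℝ) *
      ∑ p ∈ T.filter (fun p => ∃ j : ℕ, j * (5 * w * Sh) + 5 * w * a < f p ∧
        f p ≤ j * (5 * w * Sh) + 5 * w * (a + 1)), k p := by
    calc (Sh : ℝ) * ∑ p ∈ T, k p = ∑ _a ∈ Finset.range Sh, ∑ p ∈ T, k p := by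
          rw [Finset.sum_const, Finset.card_range, nsmul_eq_mul]
      _ < _ := by
          apply Finset.sum_lt_sum_of_nonempty
          · rw [Finset.nonempty_range_iff]; omega
          · intro a ha
            exact hcon a (Finset.mem_range.mp ha)
  rw [← Finset.mul_sum] at h1
  have h2 := lt_of_mul_lt_mul_left h1 hSh'.le
  apply absurd h2
  rw [not_lt]
  simp only [Finset.sum_filter]
  rw [Finset.sum_comm]
  apply Finset.sum_le_sum
  intro p hp
  rw [← Finset.sum_filter, Finset.sum_const, nsmul_eq_mul]
  have h3 : ((Finset.range Sh).filter (fun a : ℕ => ∃ j : ℕ, j * (5 * w * Sh) + 5 * w * a < f p ∧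
      f p ≤ j * (5 * w * Sh) + 5 * w * (a + 1))).card ≤ 1 := by
    rw [Finset.card_le_one]
    intro a ha b hb
    rw [Finset.mem_filter, Finset.mem_range] at ha hb
    obtain ⟨ha1, j, hj1, hj2⟩ := ha
    obtain ⟨hb1, i, hi1, hi2⟩ := hb
    have hW : (0 : ℝ) < 5 * w := by linarith
    have e1 : (5 * w) * ((j * Sh + a : ℕ) : ℝ) < (5 * w) * ((i * Sh + b + 1 : ℕ) : ℝ) := by
      push_cast
      calc (5 * w) * ((j : ℝ) * Sh + a) = j * (5 * w * Sh) + 5 * w * a := by ring
        _ < f p := hj1
        _ ≤ _ := hi2
        _ = _ := by ring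
    have e2 : (5 * w) * ((i * Sh + b : ℕ) : ℝ) < (5 * w) * ((j * Sh + a + 1 : ℕ) : ℝ) := by
      push_cast
      calc (5 * w) * ((i : ℝ) * Sh + b) = i * (5 * w * Sh) + 5 * w * b := by ring
        _ < f p := hi1
        _ ≤ _ := hj2
        _ = _ := by ring
    have e3 : j * Sh + a < i * Sh + b + 1 := by exact_mod_cast lt_of_mul_lt_mul_left e1 hW.le
    have e4 : i * Sh + b < j * Sh + a + 1 := by exact_mod_cast lt_of_mul_lt_mul_left e2 hW.le
    have e5 : j * Sh + a = i * Sh + b := by omega
    have e6 := congrArg (· % Sh) e5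
    simp only [Nat.mul_add_mod_self_right, Nat.mod_eq_of_lt ha1, Nat.mod_eq_of_lt hb1] at e6
    exact e6
  calc _ ≤ (1 : ℝ) * k p := by
        apply mul_le_mul_of_nonneg_right _ (hk p hp)
        exact_mod_cast h3
    _ = k p := one_mul _

end Pool.Agent.Helper65.CG
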